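import Mathlib

set_option autoImplicit false

namespace Pool.Agent.Results.MP_5c8dfa_al.NoBound

open Equiv

lemma three (D : Fin 3 → Bool) (u : ℤˣ) :
    ∃ σ : Perm (Fin 3), (∀ x, D (σ x) = D x) ∧ Perm.sign σ = u := by
  revert D u
  decide

/-- For every `C` there are a finite set `Ω`, a permutation group `G ≤ Sym(Ω)` and an epimorphism
`φ` of `G` onto a finite group `H` with `|H| ≥ C` such that for every subset `Δ ⊆ Ω`, the setwise
stabilizer of `Δ` in `G` is mapped onto the whole of `H`. -/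
theorem result (C : ℕ) :
    ∃ (Ω : Type) (_ : Finite Ω) (G : Subgroup (Perm Ω)) (H : Type) (_ : Group H) (φ : G →* H),
      Finite H ∧ C ≤ Nat.card H ∧ Function.Surjective φ ∧
      ∀ (Δ : Set Ω) (h : H), ∃ g : G, (g : Perm Ω) '' Δ = Δ ∧ φ g = h := by
  classical
  let ι := Perm.sigmaCongrRightHom (fun _ : Fin C => Fin 3)
  have hι : Function.Injective ι := Perm.sigmaCongrRightHom_injective
  let s : (Fin C → Perm (Fin 3)) →* (Fin C → ℤˣ) :=
    MonoidHom.pi fun i => Perm.sign.comp (Pi.evalMonoidHom (fun _ : Fin C => Perm (Fin 3)) i)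
  let φ : ι.range →* (Fin C → ℤˣ) := s.comp (MonoidHom.ofInjective hι).symm.toMonoidHom
  have key : ∀ (Δ : Set (Σ _ : Fin C, Fin 3)) (h : Fin C → ℤˣ),
      ∃ g : ι.range, (g : Perm (Σ _ : Fin C, Fin 3)) '' Δ = Δ ∧ φ g = h := by
    intro Δ h
    choose σ hσ1 hσ2 using fun i : Fin C => three (fun x => decide (⟨i, x⟩ ∈ Δ)) (h i)
    refine ⟨MonoidHom.ofInjective hι σ, ?_, ?_⟩
    · have hm : ∀ p : (Σ _ : Fin C, Fin 3), ι σ p ∈ Δ ↔ p ∈ Δ := by
        rintro ⟨i, x⟩
        have := hσ1 i x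
        show (⟨i, σ i x⟩ : Σ _ : Fin C, Fin 3) ∈ Δ ↔ _
        simpa using this
      show ι σ '' Δ = Δ
      ext p
      constructor
      · rintro ⟨q, hq, rfl⟩
        exact (hm q).mpr hq
      · intro hp
        refine ⟨(ι σ).symm p, (hm _).mp ?_, by simp⟩
        simpa using hp
    · show s ((MonoidHom.ofInjective hι).symm (MonoidHom.ofInjective hι σ)) = h
      rw [MulEquiv.symm_apply_apply]
      funext i
      exact hσ2 i
  refine ⟨(Σ _ : Fin C, Fin 3), inferInstance, ι.range, Fin C → ℤˣ, inferInstance, φ,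
    inferInstance, ?_, fun h => ?_, key⟩
  · rw [Nat.card_eq_fintype_card, Fintype.card_fun, Fintype.card_units_int, Fintype.card_fin]
    exact Nat.lt_two_pow_self.le
  · obtain ⟨g, -, hg⟩ := key ∅ h
    exact ⟨g, hg⟩

end Pool.Agent.Results.MP_5c8dfa_al.NoBound
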